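import Mathlib
import Pool.Agent.H220.TS.Stm

/-!
# S_tan: upper bound for the hyperbolic distance from a diameter
-/

set_option autoImplicit false

open Set Filter Topology Metric
open scoped ComplexConjugate

namespace Pool.Agent.H102.TS

open Pool.Agent.H220.TS

theorem s_tan (h₁ : S_pick) (h₂ : S_cay) : S_tan := by
  intro τ hτ z hz
  have hτ0 : τ ≠ 0 := by
    intro h0
    rw [h0, norm_zero] at hτ
    exact zero_ne_one hτ
  obtain ⟨-, hre, -, -⟩ := h₂ τ hτ z hz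
  set w : ℂ := W τ z with hw
  set A : ℝ := ‖w‖ with hA
  have hA0 : 0 < A := by
    rw [hA, norm_pos_iff]
    intro h0
    rw [h0, Complex.zero_re] at hre
    exact lt_irrefl _ hre
  have hA1 : 0 < A + 1 := by linarith
  have hr1 : -1 < (A - 1) / (A + 1) := by
    rw [lt_div_iff₀ hA1]
    linarith
  have hr2 : (A - 1) / (A + 1) < 1 := by
    rw [div_lt_one hA1]
    linarith
  refine ⟨(A - 1) / (A + 1), hr1, hr2, ?_⟩
  set r : ℝ := (A - 1) / (A + 1) with hr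
  have hrD : (r : ℂ) * τ ∈ D := by
    change (r : ℂ) * τ ∈ ball (0 : ℂ) 1
    rw [mem_ball_zero_iff, norm_mul, hτ, mul_one, Complex.norm_real, Real.norm_eq_abs, abs_lt]
    exact ⟨hr1, hr2⟩
  have hW : W τ ((r : ℂ) * τ) = (A : ℂ) := by
    unfold W
    have h1 : (1 : ℂ) - (r : ℂ) ≠ 0 := by
      intro h0
      have h3 : (r : ℂ) = 1 := by linear_combination -h0
      have h4 : r = 1 := by exact_mod_cast h3
      linarith
    have h2 : τ - (r : ℂ) * τ = τ * (1 - (r : ℂ)) := by ring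
    have h5 : τ + (r : ℂ) * τ = τ * (1 + (r : ℂ)) := by ring
    rw [h2, h5, mul_div_mul_left _ _ hτ0, div_eq_iff h1]
    have h6 : 1 + r = A * (1 - r) := by
      rw [hr]
      field_simp
      ring
    exact_mod_cast congrArg (fun t : ℝ => (t : ℂ)) h6
  obtain ⟨-, -, hpsi, -⟩ := h₂ τ hτ ((r : ℂ) * τ) hrD
  have hρ := hpsi z hz
  rw [hW, ← hw] at hρ
  have hρ1 : psi ((r : ℂ) * τ) z < 1 := h₁.1 _ hrD z hz
  set ρ : ℝ := psi ((r : ℂ) * τ) z with hρd
  have hρ0 : 0 ≤ ρ := norm_nonneg _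
  set u : ℝ := w.re with hu
  set N : ℝ := ‖(A : ℂ) + conj w‖ with hN
  have hNsq : N ^ 2 = (A + u) ^ 2 + w.im ^ 2 := by
    rw [hN, Complex.sq_norm, Complex.normSq_apply]
    simp only [Complex.add_re, Complex.add_im, Complex.ofReal_re, Complex.ofReal_im,
      Complex.conj_re, Complex.conj_im]
    ring
  have hMsq : ‖(A : ℂ) - w‖ ^ 2 = (A - u) ^ 2 + w.im ^ 2 := by
    rw [Complex.sq_norm, Complex.normSq_apply]
    simp only [Complex.sub_re, Complex.sub_im, Complex.ofReal_re, Complex.ofReal_im]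
    ring
  have hAsq : A ^ 2 = u ^ 2 + w.im ^ 2 := by
    rw [hA, Complex.sq_norm, Complex.normSq_apply]
    ring
  have hu0 : 0 < u := hre
  have hNpos2 : 0 < N ^ 2 := by
    rw [hNsq]
    positivity
  have hN0 : N ≠ 0 := by
    intro h0
    rw [h0] at hNpos2
    norm_num at hNpos2
  have huA : u ≤ A := Complex.re_le_norm w
  have hN4 : N ^ 2 ≤ 4 * A ^ 2 := by
    rw [hNsq]
    nlinarith
  have hρN : ρ ^ 2 * N ^ 2 = (A - u) ^ 2 + w.im ^ 2 := by
    rw [hρ, div_pow, hMsq, div_mul_cancel₀ _ (pow_ne_zero 2 hN0)]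
  have h1 : (1 - ρ ^ 2) * N ^ 2 = 4 * A * u := by
    have : (1 - ρ ^ 2) * N ^ 2 = N ^ 2 - ρ ^ 2 * N ^ 2 := by ring
    rw [this, hρN, hNsq]
    ring
  have hρsq : 0 ≤ 1 - ρ ^ 2 := by nlinarith
  have h2 : u ≤ (1 - ρ ^ 2) * A := by
    have h3 : 4 * A * u ≤ (1 - ρ ^ 2) * (4 * A ^ 2) := by
      rw [← h1]
      exact mul_le_mul_of_nonneg_left hN4 hρsq
    have h4 : 4 * A * u ≤ 4 * A * ((1 - ρ ^ 2) * A) := by
      calc 4 * A * u ≤ (1 - ρ ^ 2) * (4 * A ^ 2) := h3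
        _ = 4 * A * ((1 - ρ ^ 2) * A) := by ring
    exact le_of_mul_le_mul_left h4 (by linarith)
  have h1ρ : 0 < 1 - ρ := by linarith
  have h3 : (1 + ρ) / (1 - ρ) ≤ 4 * A / u := by
    rw [div_le_div_iff₀ h1ρ hu0]
    calc (1 + ρ) * u ≤ (1 + ρ) * ((1 - ρ ^ 2) * A) :=
          mul_le_mul_of_nonneg_left h2 (by linarith)
      _ = (1 + ρ) ^ 2 * ((1 - ρ) * A) := by ring
      _ ≤ 4 * ((1 - ρ) * A) := by
          refine mul_le_mul_of_nonneg_right ?_ (mul_nonneg h1ρ.le hA0.le)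
          nlinarith
      _ = 4 * A * (1 - ρ) := by ring
  have h4 : 0 < (1 + ρ) / (1 - ρ) := div_pos (by linarith) h1ρ
  unfold omega
  rw [← hρd]
  exact mul_le_mul_of_nonneg_left (Real.log_le_log h4 h3) (by norm_num)

end Pool.Agent.H102.TS
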